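import Pool.Agent.Lib_helper52.EPS.Defs
import Pool.Agent.Lib_helper89.EPS.A0
import Pool.Agent.Lib_helper83.EPS.A1
set_option autoImplicit false

namespace Pool.Agent.EPS

open MeasureTheory Set Filter Topology

/-- the distribution function of the Gaussian -/
theorem ga_cdf : ∃ Q : ℝ → ℝ, (∀ x, Q x ∈ Ioo (0 : ℝ) 1) ∧ (∀ x, HasDerivAt Q (ga x) x) ∧
    (∀ p ∈ Ioo (0 : ℝ) 1, ∃ x, Q x = p) := by
  obtain ⟨hint, hone⟩ := ga_int
  have hQ : ∀ x : ℝ, ∫ t in Iic x, ga t = (∫ t in Iic (0 : ℝ), ga t) + ∫ t in (0 : ℝ)..x, ga t := by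
    intro x
    rw [← intervalIntegral.integral_Iic_sub_Iic hint.integrableOn hint.integrableOn]
    ring
  have hder : ∀ x : ℝ, HasDerivAt (fun x : ℝ => ∫ t in Iic x, ga t) (ga x) x := by
    intro x
    have h1 : HasDerivAt (fun x : ℝ => (∫ t in Iic (0 : ℝ), ga t) + ∫ t in (0 : ℝ)..x, ga t)
        (ga x) x := (ga_cont.integral_hasStrictDerivAt 0 x).hasDerivAt.const_add _
    have h2 : (fun x : ℝ => ∫ t in Iic x, ga t) =
        fun x : ℝ => (∫ t in Iic (0 : ℝ), ga t) + ∫ t in (0 : ℝ)..x, ga t := funext hQ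
    rw [h2]
    exact h1
  have hmono : StrictMono (fun x : ℝ => ∫ t in Iic x, ga t) :=
    strictMono_of_deriv_pos (fun x => by rw [(hder x).deriv]; exact ga_pos x)
  have htop : Tendsto (fun x : ℝ => ∫ t in Iic x, ga t) atTop (𝓝 1) := by
    have h := (aecover_Iic (μ := (volume : Measure ℝ)) (l := atTop) (b := fun x : ℝ => x)
      tendsto_id).integral_tendsto_of_countably_generated hint
    rw [hone] at h
    exact h
  have hbot : Tendsto (fun x : ℝ => ∫ t in Iic x, ga t) atBot (𝓝 0) := by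
    have h := (aecover_Ioi (μ := (volume : Measure ℝ)) (l := atBot) (a := fun x : ℝ => x)
      tendsto_id).integral_tendsto_of_countably_generated hint
    rw [hone] at h
    have h2 : (fun x : ℝ => ∫ t in Iic x, ga t) = fun x : ℝ => 1 - ∫ t in Ioi x, ga t := by
      funext x
      have h3 := integral_add_compl (μ := (volume : Measure ℝ)) (s := Iic x) measurableSet_Iic hint
      rw [compl_Iic, hone] at h3
      linarith
    rw [h2]
    have h4 := h.const_sub 1
    simpa using h4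
  refine ⟨fun x : ℝ => ∫ t in Iic x, ga t, fun x => ⟨?_, ?_⟩, hder, ?_⟩
  · have h1 := hmono.monotone.le_of_tendsto hbot (x - 1)
    have h2 : (∫ t in Iic (x - 1), ga t) < ∫ t in Iic x, ga t := hmono (by linarith)
    exact lt_of_le_of_lt h1 h2
  · have h1 := hmono.monotone.ge_of_tendsto htop (x + 1)
    have h2 : (∫ t in Iic x, ga t) < ∫ t in Iic (x + 1), ga t := hmono (by linarith)
    exact lt_of_lt_of_le h2 h1
  · rintro p ⟨hp0, hp1⟩
    have hcont : Continuous (fun x : ℝ => ∫ t in Iic x, ga t) :=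
      continuous_iff_continuousAt.2 (fun x => (hder x).continuousAt)
    have e1 : ∃ x : ℝ, ∫ t in Iic x, ga t ≤ p := by
      obtain ⟨x, hx⟩ := (hbot.eventually (gt_mem_nhds hp0)).exists
      exact ⟨x, le_of_lt hx⟩
    have e2 : ∃ x : ℝ, p ≤ ∫ t in Iic x, ga t := by
      obtain ⟨x, hx⟩ := (htop.eventually (lt_mem_nhds hp1)).exists
      exact ⟨x, le_of_lt hx⟩
    exact mem_range_of_exists_le_of_exists_ge hcont e1 e2

/-- transport maps exist -/
theorem exists_Tr {a b m M : ℝ} {f : ℝ → ℝ} (h : Nice a b m M f) : ∃ T : ℝ → ℝ, Tr a b f T := by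
  obtain ⟨Q, hQ1, hQ2, hQ3⟩ := ga_cdf
  obtain ⟨S, hS1, hS2, hS3⟩ := quantile h
  refine ⟨fun x => S (Q x), ⟨fun x => hS1 _ (hQ1 x), fun x => ?_, fun y hy => ?_⟩⟩
  · have h1 : HasDerivAt (fun x => S (Q x)) (1 / f (S (Q x)) * ga x) x :=
      (hS2 (Q x) (hQ1 x)).comp x (hQ2 x)
    have h2 : ga x / f (S (Q x)) = 1 / f (S (Q x)) * ga x := by ring
    rw [h2]
    exact h1
  · obtain ⟨p, hp, hpy⟩ := hS3 y hy
    obtain ⟨x, hx⟩ := hQ3 p hp
    exact ⟨x, by simp only [hx, hpy]⟩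

end Pool.Agent.EPS
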