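import Pool.Agent.Lib_helper52.EPS.Defs
import Pool.Agent.Lib_helper89.EPS.A0
set_option autoImplicit false

namespace Pool.Agent.EPS

open MeasureTheory Set Filter Topology

theorem a3_f {a b m M : ℝ} {f T : ℝ → ℝ} (h : Nice a b m M f) (hT : Tr a b f T) (z : ℝ) :
    m ≤ f (T z) ∧ f (T z) ≤ M ∧ 0 < f (T z) := by
  have h1 := h.lo (T z) (Ioo_subset_Icc_self (hT.mem z))
  exact ⟨h1, h.hi (T z) (Ioo_subset_Icc_self (hT.mem z)), lt_of_lt_of_le h.m0 h1⟩

/-- bounds for the derivative of a transport map -/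
theorem tr_bd {a b m M : ℝ} {f T : ℝ → ℝ} (h : Nice a b m M f) (hT : Tr a b f T) (z : ℝ) :
    0 < ga z / f (T z) ∧ ga z / f (T z) ≤ 1 / m ∧
      -(Real.pi * z ^ 2) - Real.log M ≤ Real.log (ga z / f (T z)) := by
  obtain ⟨h1, h2, h3⟩ := a3_f h hT z
  refine ⟨div_pos (ga_pos z) h3, ?_, ?_⟩
  · exact div_le_div₀ zero_le_one (ga_le z) h.m0 h1
  · rw [Real.log_div (ga_pos z).ne' h3.ne']
    have h4 : Real.log (ga z) = -(Real.pi * z ^ 2) := by
      unfold ga
      rw [Real.log_exp]
    have h5 := Real.log_le_log h3 h2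
    rw [h4]
    linarith

theorem tr_cont {a b m M : ℝ} {f T : ℝ → ℝ} (h : Nice a b m M f) (hT : Tr a b f T) :
    StrictMono T ∧ Continuous T ∧ Continuous (fun z => ga z / f (T z)) := by
  have hc : Continuous T := continuous_iff_continuousAt.2 (fun x => (hT.der x).continuousAt)
  refine ⟨strictMono_of_deriv_pos (fun x => by rw [(hT.der x).deriv]; exact (tr_bd h hT x).1),
    hc, ?_⟩
  have hfT : Continuous (fun z => f (T z)) :=
    h.cont.comp_continuous hc (fun x => Ioo_subset_Icc_self (hT.mem x))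
  exact ga_cont.div hfT (fun z => (a3_f h hT z).2.2.ne')

/-- change of variables -/
theorem tr_integral {a b m M : ℝ} {f T : ℝ → ℝ} (h : Nice a b m M f) (hT : Tr a b f T)
    (g : ℝ → ℝ) :
    (Integrable (fun y => g y * f y) ↔ Integrable (fun x => g (T x) * ga x)) ∧
      ∫ y, g y * f y = ∫ x, g (T x) * ga x := by
  have himg : T '' univ = Ioo a b := by
    ext y
    constructor
    · rintro ⟨x, -, rfl⟩
      exact hT.mem x
    · intro hy
      obtain ⟨x, hx⟩ := hT.sur y hy
      exact ⟨x, mem_univ x, hx⟩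
  have hinj : InjOn T univ := (tr_cont h hT).1.injective.injOn
  have hder : ∀ x ∈ (univ : Set ℝ), HasDerivWithinAt T (ga x / f (T x)) univ x :=
    fun x _ => (hT.der x).hasDerivWithinAt
  have hfun : (fun x => |ga x / f (T x)| • (g (T x) * f (T x))) = fun x => g (T x) * ga x := by
    funext x
    have h1 := (tr_bd h hT x).1
    have h2 := (a3_f h hT x).2.2
    rw [abs_of_pos h1, smul_eq_mul]
    field_simp
  have hoff : ∀ y, y ∉ Icc a b → g y * f y = 0 := by
    intro y hy
    rw [h.off y hy, mul_zero]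
  constructor
  · have e1 : Integrable (fun y => g y * f y) ↔ IntegrableOn (fun y => g y * f y) (Icc a b) := by
      refine (integrableOn_iff_integrable_of_support_subset ?_).symm
      intro y hy
      by_contra hy'
      exact hy (hoff y hy')
    rw [e1, integrableOn_Icc_iff_integrableOn_Ioo, ← himg,
      integrableOn_image_iff_integrableOn_abs_deriv_smul MeasurableSet.univ hder hinj, hfun,
      integrableOn_univ]
  · rw [← setIntegral_eq_integral_of_forall_compl_eq_zero hoff, integral_Icc_eq_integral_Ioo,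
      ← himg, integral_image_eq_integral_abs_deriv_smul MeasurableSet.univ hder hinj, hfun,
      setIntegral_univ]

end Pool.Agent.EPS
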