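import Pool.Agent.Lib_helper52.EPS.Defs

set_option autoImplicit false

namespace Pool.Agent.EPS

open MeasureTheory Set Filter Topology

/-- Gibbs' inequality in homogeneous form -/
theorem gibbs {α : Type*} [MeasurableSpace α] {μ : Measure α} (p s : α → ℝ)
    (hp0 : ∀ x, 0 ≤ p x) (hs0 : ∀ x, 0 ≤ s x) (hp : Integrable p μ) (hs : Integrable s μ)
    (hs1 : ∫ x, s x ∂μ ≤ 1) (hpe : Integrable (fun x => Real.negMulLog (p x)) μ)
    (hps : Integrable (fun x => p x * Real.log (s x)) μ) (hpos : ∀ᵐ x ∂μ, s x = 0 → p x = 0) :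
    (∫ x, Real.negMulLog (p x) ∂μ) - Real.negMulLog (∫ x, p x ∂μ) ≤
      - ∫ x, p x * Real.log (s x) ∂μ := by
  by_cases hm : ∫ x, p x ∂μ = 0
  · have h0 : p =ᵐ[μ] 0 := (integral_eq_zero_iff_of_nonneg hp0 hp).1 hm
    have h1 : ∫ x, Real.negMulLog (p x) ∂μ = ∫ _, (0 : ℝ) ∂μ := by
      apply integral_congr_ae
      filter_upwards [h0] with x hx
      rw [hx]
      simp
    have h2 : ∫ x, p x * Real.log (s x) ∂μ = ∫ _, (0 : ℝ) ∂μ := by
      apply integral_congr_ae
      filter_upwards [h0] with x hx
      rw [hx]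
      simp
    rw [h1, h2, hm]
    simp
  · have hm0 : 0 < ∫ x, p x ∂μ := lt_of_le_of_ne (integral_nonneg hp0) (Ne.symm hm)
    set m : ℝ := ∫ x, p x ∂μ with hmdef
    have hpt : ∀ᵐ x ∂μ, Real.negMulLog (p x) + p x * Real.log (s x) + p x * Real.log m ≤
        s x * m - p x := by
      filter_upwards [hpos] with x hx
      rcases (hp0 x).eq_or_lt with h | h
      · rw [← h]
        have := mul_nonneg (hs0 x) hm0.le
        simp only [Real.negMulLog_zero, zero_mul, add_zero, sub_zero]
        exact this
      · have hs' : 0 < s x := by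
          rcases (hs0 x).eq_or_lt with h' | h'
          · exact absurd (hx h'.symm) h.ne'
          · exact h'
        have hq : 0 < s x * m / p x := by positivity
        have h1 := Real.log_le_sub_one_of_pos hq
        rw [Real.log_div (by positivity) h.ne', Real.log_mul hs'.ne' hm0.ne'] at h1
        have h2 := mul_le_mul_of_nonneg_left h1 h.le
        have h3 : p x * (s x * m / p x - 1) = s x * m - p x := by
          field_simp
        rw [h3] at h2
        unfold Real.negMulLog
        linarith
    have hint1 : Integrable (fun x => Real.negMulLog (p x) + p x * Real.log (s x)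
        + p x * Real.log m) μ := (hpe.add hps).add (hp.mul_const _)
    have hint2 : Integrable (fun x => s x * m - p x) μ := (hs.mul_const _).sub hp
    have h4 := integral_mono_ae hint1 hint2 hpt
    have h5 : ∫ x, (Real.negMulLog (p x) + p x * Real.log (s x) + p x * Real.log m) ∂μ
        = (∫ x, Real.negMulLog (p x) ∂μ) + (∫ x, p x * Real.log (s x) ∂μ) + m * Real.log m := by
      have hint0 : Integrable (fun x => Real.negMulLog (p x) + p x * Real.log (s x)) μ :=
        hpe.add hps
      rw [integral_add hint0 (hp.mul_const _), integral_add hpe hps, integral_mul_const]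
    have h6 : ∫ x, (s x * m - p x) ∂μ = (∫ x, s x ∂μ) * m - m := by
      rw [integral_sub (hs.mul_const _) hp, integral_mul_const]
    have h7 : (∫ x, Real.negMulLog (p x) ∂μ) + (∫ x, p x * Real.log (s x) ∂μ) + m * Real.log m
        ≤ (∫ x, s x ∂μ) * m - m := by
      rw [← h5, ← h6]
      exact h4
    have h8 : (∫ x, s x ∂μ) * m ≤ 1 * m := mul_le_mul_of_nonneg_right hs1 hm0.le
    have h9 : Real.negMulLog m = - m * Real.log m := rfl
    rw [h9]
    linarith

/-- weighted arithmetic-geometric mean with square roots -/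
theorem amgm (l : ℝ) (h0 : 0 < l) (h1 : l < 1) (A B : ℝ) (hA : 0 < A) (hB : 0 < B) :
    l * Real.log A + (1 - l) * Real.log B + 1 / 2 * Real.binEntropy l ≤
      Real.log (Real.sqrt l * A + Real.sqrt (1 - l) * B) := by
  have h1' : 0 < 1 - l := by linarith
  have hs0 : 0 < Real.sqrt l := Real.sqrt_pos.2 h0
  have hs1 : 0 < Real.sqrt (1 - l) := Real.sqrt_pos.2 h1'
  have hc := strictConcaveOn_log_Ioi.concaveOn.2 (x := A / Real.sqrt l)
    (y := B / Real.sqrt (1 - l)) (mem_Ioi.2 (div_pos hA hs0)) (mem_Ioi.2 (div_pos hB hs1))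
    h0.le h1'.le (by ring)
  simp only [smul_eq_mul] at hc
  have e1 : l * (A / Real.sqrt l) = Real.sqrt l * A := by
    have : l = Real.sqrt l * Real.sqrt l := (Real.mul_self_sqrt h0.le).symm
    field_simp
    rw [Real.sq_sqrt h0.le]
  have e2 : (1 - l) * (B / Real.sqrt (1 - l)) = Real.sqrt (1 - l) * B := by
    field_simp
    rw [Real.sq_sqrt h1'.le]
  rw [e1, e2, Real.log_div hA.ne' hs0.ne', Real.log_div hB.ne' hs1.ne',
    Real.log_sqrt h0.le, Real.log_sqrt h1'.le] at hc
  have e3 : Real.binEntropy l = - (l * Real.log l) - (1 - l) * Real.log (1 - l) := by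
    unfold Real.binEntropy
    rw [Real.log_inv, Real.log_inv]
    ring
  rw [e3]
  linarith

end Pool.Agent.EPS
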